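import Pool.Agent.Zk64.NotQuad

/-!
# The lower central series Lie ring of `IA_3` is not quadratically presented

Let `IA_3` be the group of automorphisms of the free group `F_3` on `x_1, x_2, x_3` which induce
the identity on the abelianization, `E = E_0^*(IA_3)` its lower central series Lie ring
(`BurnLie.AssocLie`), `V` its degree one part and `L[V]` the free Lie ring on the abelian group
`V` (`FreeLie`). The kernel of the natural homomorphism `L[V] → E` (`canon`) is not generated, as a
Lie ideal, by its degree two part; it contains an element of degree three none of whose nonzero
integer multiples is in the ideal generated by the degree two part, so that `E ⊗ ℚ` is not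
quadratically presented either.

Idea. Let `K_12 : x_1 ↦ x_2⁻¹ x_1 x_2`, `K_13 : x_1 ↦ x_3⁻¹ x_1 x_3`, `K_123 : x_1 ↦ x_1 [x_2, x_3]`
(the other generators are fixed). Then `[K_123, [K_12, K_13]] = 1` in `IA_3`. On the other hand
there is a Lie ring with basis `a, b, c, u, v, m, z` and brackets `[c, a] = u`, `[c, b] = v`,
`[a, b] = m`, `[c, m] = z = [a, v]`, and the additive map from `V` with `K_12 ↦ a`, `K_32 ↦ -a`,
`K_13 ↦ b`, `K_23 ↦ -b`, `K_123 ↦ c` which kills the other standard generators respects all
quadratic relations of `E`; this is checked with the terms of order at most two of the Magnus
representation of `IA_3` by Fox derivatives. The cubic relation goes to `z`.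
-/

set_option autoImplicit false

namespace Pool.Agent.Results.MP_df4ecf_al.CubicRelationIA3

open Pool.Agent.Zk64.QL

/-- The kernel of the natural homomorphism `L[V] → E_0^*(IA_3)` contains an element no nonzero
multiple of which belongs to the Lie ideal generated by the degree two part of the kernel. In
particular `E_0^*(IA_3)` is not a free Lie algebra modulo quadratic relations. -/
theorem result : NotQuadratic (IA 3) :=
  ⟨rel, canon_rel, main⟩

end Pool.Agent.Results.MP_df4ecf_al.CubicRelationIA3
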